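import Pool.Agent.Lib.Pc41d74.Group

/-!
# Kernels of Kirwan maps and the locally free locus: a counterexample

The group is `G = U(2) × U(1)`, acting on `ℂ^8 = ℂ²(a) ⊕ ℂ²(b) ⊕ ℂ²(w) ⊕ ℂ(y₀) ⊕ ℂ(y₁)` by
`a ↦ g a`, `b ↦ g b`, `w ↦ t ḡ w`, `y₀ ↦ t y₀`, `y₁ ↦ t (det g)⁻¹ y₁`.  The class is the first
Chern class of the character `det g`.
-/

open Set Topology Filter
open scoped ComplexConjugate Matrix InnerProductSpace

noncomputable section

namespace Pool.Agent.Results.MP_c41d74_gt.KirwanKernel

open Pool.Agent.Lib.Pc41d74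

lemma zf_vtx : zf (vtx 2 0) = 1 := by
  have h0 : (vtx 2 0).1 0 = 1 := by rw [vtx_val]; simp
  have h1 : (vtx 2 0).1 1 = 0 := by rw [vtx_val]; simp
  have h2 : (vtx 2 0).1 2 = 0 := by rw [vtx_val]; simp
  have hw : wf (vtx 2 0) = 1 := by
    simp [wf, h0, h1, h2]
  have hm : mf (vtx 2 0) = 0 := by
    simp [mf, h0, h1, h2]
  simp [zf, hw, hm]

lemma xf_vtx : xf (vtx 2 0) = x0 := by
  simp [xf, x0, zf_vtx]

/-- There are a compact connected nonabelian Lie group `G` and a unitary action of `G` on a
complex vector space, with proper moment map and with a non-empty central regular level set, and a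
class in `H^2_G(pt)` which is in the kernel of the Kirwan map of every central regular value but
whose restriction to the locally free locus does not vanish. -/
theorem result :
    ∃ (G : Type) (_ : Group G) (_ : TopologicalSpace G) (κ ν : Type)
      (_ : Fintype κ) (_ : DecidableEq κ) (_ : Fintype ν) (_ : DecidableEq ν)
      (A : UnitaryAction G κ ν),
      IsTopologicalGroup G ∧ CompactSpace G ∧ ConnectedSpace G ∧ (∃ g h : G, g * h ≠ h * g) ∧
      A.HasProperMoment ∧ A.IsNondegenerate ∧
      ∃ c : H 2 A.BG, A.InAllKirwanKernels 2 c ∧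
        A.restrict 2 A.locallyFree c ≠ 0 ∧ A.restrict 2 A.locallyFreeC c ≠ 0 := by
  refine ⟨GG, inferInstance, inferInstance, KK, NN, inferInstance, inferInstance, inferInstance,
    inferInstance, exAction, inferInstance, inferInstance, inferInstance, not_commutative,
    ⟨hElt 2 2 6, moment_proper⟩, ⟨alphaStar, alphaStar_central, alphaStar_regular, zstar, rfl⟩,
    UnitaryAction.charClass hasChar, ?_, ?_, ?_⟩
  · intro α hα hreg
    exact UnitaryAction.restrict_charClass_eq_zero hasChar (exAction.level α) DD continuous_DD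
      (fun z hz => DD_ne_zero hα hreg z hz) DD_act
  · exact restrict_ne_zero _ xf_mem_locallyFree (xf_vtx ▸ xf_mem_locallyFree (vtx 2 0))
  · exact restrict_ne_zero _ xf_mem_locallyFreeC (xf_vtx ▸ xf_mem_locallyFreeC (vtx 2 0))

end Pool.Agent.Results.MP_c41d74_gt.KirwanKernel
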